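import Pool.Agent.BLP.StmtsM
import Pool.Agent.BLP.StmtsA

/-!
# Squad BLP, row M_INT: all last-passage values are in `L²`
-/

namespace Pool.Agent.BLP.H20

open MeasureTheory ProbabilityTheory Filter Topology Finset
open scoped ENNReal

noncomputable section

theorem L_eq_zero (b : Env) (m n : ℤ) (s t : ℝ) (h : n < m ∨ t < s) : L b m s n t = 0 := by
  have hsub : {E | ∃ τ : ℤ → ℝ, τ (m - 1) = s ∧ τ n = t ∧
      (∀ r, m ≤ r → r ≤ n → τ (r - 1) ≤ τ r) ∧ E = En b τ m n} ⊆ ({0} : Set ℝ) := by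
    rintro E ⟨τ, h1, h2, h3, rfl⟩
    by_cases hn : n < m
    · simp [En, Finset.Icc_eq_empty (not_le.2 hn)]
    · exfalso
      have hts : t < s := h.resolve_left hn
      have hmn : m ≤ n := not_lt.1 hn
      have key : ∀ k : ℕ, m + k ≤ n → s ≤ τ (m + k) := by
        intro k
        induction k with
        | zero =>
          intro hk
          have h4 := h3 m le_rfl hmn
          rw [h1] at h4
          have h5 : m + ((0 : ℕ) : ℤ) = m := by simp
          rw [h5]
          exact h4
        | succ k ih =>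
          intro hk
          have hk' : m + (k : ℤ) + 1 ≤ n := by
            push_cast at hk
            omega
          have h4 := h3 (m + (k : ℤ) + 1) (by omega) hk'
          have h5 : m + (k : ℤ) + 1 - 1 = m + k := by ring
          rw [h5] at h4
          have h6 : m + ((k + 1 : ℕ) : ℤ) = m + (k : ℤ) + 1 := by push_cast; ring
          rw [h6]
          exact (ih (by omega)).trans h4
      have h7 := key (n - m).toNat (by omega)
      have h8 : m + (((n - m).toNat : ℕ) : ℤ) = n := by omega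
      rw [h8, h2] at h7
      linarith
  unfold L
  rcases Set.subset_singleton_iff_eq.1 hsub with h | h
  · rw [h]
    exact Real.sSup_empty
  · rw [h]
    exact csSup_singleton 0

theorem memLp_incr {X : Type} [MeasurableSpace X] {μ : Measure X} {B : X → Env} (hsp : Sp μ B)
    (r : ℤ) (s t : ℝ) (hst : s ≤ t) : MemLp (fun x => B x r t - B x r s) 2 μ := by
  have hm : Measurable (fun x => B x r t - B x r s) := (hsp.mea r t).sub (hsp.mea r s)
  have h1 : MemLp (id : ℝ → ℝ) 2 (μ.map (fun x => B x r t - B x r s)) := by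
    rw [hsp.law r s t hst]
    exact memLp_id_gaussianReal' 2 (by simp)
  exact (memLp_map_measure_iff h1.1 hm.aemeasurable).1 h1

theorem m_int (hSPK : SpkStmt) (hONE : OneStmt) (hINC : IncStmt) (hTRF : TrfStmt)
    (hEXL : ExlStmt) (hMEA : MeaStmt) : IntStmt := by
  intro X _ μ B hsp m s n t
  have hprob : IsProbabilityMeasure μ := hsp.prob
  by_cases h0 : n < m ∨ t < s
  · have h1 : (fun x => L (B x) m s n t) = fun _ => (0 : ℝ) := by
      funext x
      exact L_eq_zero (B x) m n s t h0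
    rw [h1]
    exact MemLp.zero
  have hmn : m ≤ n := not_lt.1 fun h => h0 (Or.inl h)
  have hst : s ≤ t := not_lt.1 fun h => h0 (Or.inr h)
  obtain ⟨a, ha⟩ : ∃ a : ℤ, a = ⌊s⌋ := ⟨_, rfl⟩
  obtain ⟨N, hN⟩ : ∃ N : ℕ, N = (n - m + 1).toNat + ⌈t - a⌉₊ := ⟨_, rfl⟩
  have has : (a : ℝ) ≤ s := by
    rw [ha]
    exact Int.floor_le s
  have hN1 : n ≤ m + (N : ℤ) - 1 := by
    have h2 : ((n - m + 1).toNat : ℤ) ≤ N := by
      rw [hN]
      push_cast
      have : (0 : ℤ) ≤ ((⌈t - (a : ℝ)⌉₊ : ℕ) : ℤ) := by positivity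
      omega
    omega
  have hN0 : 1 ≤ N := by omega
  have hNt : t ≤ (a : ℝ) + N := by
    have h2 : t - a ≤ (⌈t - (a : ℝ)⌉₊ : ℝ) := Nat.le_ceil _
    have h3 : ((⌈t - (a : ℝ)⌉₊ : ℕ) : ℝ) ≤ (N : ℝ) := by
      rw [hN]
      push_cast
      have : (0 : ℝ) ≤ (((n - m + 1).toNat : ℕ) : ℝ) := by positivity
      linarith
    linarith
  have hat : (a : ℝ) ≤ t := has.trans hst
  have haN : (a : ℝ) ≤ (a : ℝ) + N := hat.trans hNt
  have hmN : m ≤ m + (N : ℤ) - 1 := by omega
  obtain ⟨Z, hZ⟩ : ∃ Z : X → ℝ, Z = fun x => L (B x) m a (m + (N : ℤ) - 1) (a + N) := ⟨_, rfl⟩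
  have hZm : Measurable Z := by
    rw [hZ]
    exact hMEA X μ B hsp _ _ _ _
  -- deterministic bounds
  have hup : ∀ x, L (B x) m s n t ≤ Z x - (B x m s - B x m a) -
      (B x n (a + N) - B x n t) := by
    intro x
    have hc := hsp.cts x
    have e1 := hSPK (B x) hc m m n a s t le_rfl hmn has hst
    have e2 := (hONE (B x)).1 m a s has
    have e3 := hSPK (B x) hc m n (m + (N : ℤ) - 1) a t (a + N) hmn hN1 hat hNt
    have e4 := (hINC (B x) hc n (m + (N : ℤ) - 1) hN1).2.2 n t (a + N) le_rfl hN1 hNt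
    rw [hZ]
    dsimp only
    linarith
  have hlo : ∀ x, B x m t - B x m s ≤ L (B x) m s n t := fun x =>
    (hINC (B x) (hsp.cts x) m n hmn).2.2 m s t le_rfl hmn hst
  have hZlo : ∀ x, B x m (a + N) - B x m a ≤ Z x := by
    intro x
    rw [hZ]
    exact (hINC (B x) (hsp.cts x) m _ hmN).2.2 m a (a + N) le_rfl hmN haN
  -- the exponential moment of Z
  obtain ⟨K, hK1, hK⟩ := hEXL X μ B hsp
  obtain ⟨hint, -⟩ := hK N hN0
  obtain ⟨T, hT, hTB⟩ := hTRF X μ B hsp m (a : ℚ)
  have hexp : Integrable (fun x => Real.exp (Z x)) μ := by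
    have h2 := hT.integrable_comp_of_integrable hint
    refine h2.congr ?_
    filter_upwards [hTB] with x hx
    have h3 := hx 0 0 ((N : ℤ) - 1) N
    have h4 : (0 : ℤ) + m = m := by ring
    have h5 : (0 : ℝ) + ((a : ℚ) : ℝ) = a := by push_cast; ring
    have h6 : (N : ℤ) - 1 + m = m + (N : ℤ) - 1 := by ring
    have h7 : (N : ℝ) + ((a : ℚ) : ℝ) = (a : ℝ) + N := by push_cast; ring
    rw [h4, h5, h6, h7] at h3
    rw [hZ]
    dsimp only [Function.comp]
    rw [h3]
  have hG := memLp_incr hsp m a (a + N) haN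
  have hZ2 : MemLp Z 2 μ := by
    rw [memLp_two_iff_integrable_sq hZm.aestronglyMeasurable]
    have hg : Integrable (fun x => 2 * Real.exp (Z x) + (B x m (a + N) - B x m a) ^ 2) μ :=
      (hexp.const_mul 2).add ((memLp_two_iff_integrable_sq hG.1).1 hG)
    refine hg.mono' (hZm.pow_const 2).aestronglyMeasurable (ae_of_all _ fun x => ?_)
    rw [Real.norm_eq_abs, abs_of_nonneg (sq_nonneg _)]
    rcases le_total 0 (Z x) with hz | hz
    · have h2 := Real.quadratic_le_exp_of_nonneg hz
      have h3 : (0 : ℝ) ≤ (B x m (a + N) - B x m a) ^ 2 := sq_nonneg _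
      nlinarith
    · have h2 := hZlo x
      have h3 : (0 : ℝ) ≤ 2 * Real.exp (Z x) := by positivity
      nlinarith
  have hG1 := memLp_incr hsp m s t hst
  have hG2 := memLp_incr hsp m a s has
  have hG3 := memLp_incr hsp n t (a + N) hNt
  have hsum : MemLp (fun x => |B x m t - B x m s| + |Z x| + |B x m s - B x m a| +
      |B x n (a + N) - B x n t|) 2 μ := ((hG1.abs.add hZ2.abs).add hG2.abs).add hG3.abs
  refine MemLp.mono hsum (hMEA X μ B hsp m s n t).aestronglyMeasurable (ae_of_all _ fun x => ?_)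
  have p1 := abs_nonneg (B x m t - B x m s)
  have p2 := abs_nonneg (Z x)
  have p3 := abs_nonneg (B x m s - B x m a)
  have p4 := abs_nonneg (B x n (a + N) - B x n t)
  have p5 : (0 : ℝ) ≤ |B x m t - B x m s| + |Z x| + |B x m s - B x m a| +
      |B x n (a + N) - B x n t| := by linarith
  rw [Real.norm_eq_abs, Real.norm_eq_abs, abs_of_nonneg p5, abs_le]
  constructor
  · have := hlo x
    have := neg_abs_le (B x m t - B x m s)
    linarith
  · have := hup x
    have := le_abs_self (Z x)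
    have := neg_abs_le (B x m s - B x m a)
    have := neg_abs_le (B x n (a + N) - B x n t)
    linarith

end

end Pool.Agent.BLP.H20
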