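import Pool.Agent.BLP.StmtsF

/-!
# Squad BLP, row F_FGA: the gap between two directions is small in the mean
-/

namespace Pool.Agent.BLP.H20

open MeasureTheory ProbabilityTheory Filter Topology Finset
open scoped ENNReal

noncomputable section

theorem f_fga : FgaStmt := by
  intro hQUA X _ μ B c hsp hmv q m m' s s' ε hq hm hs hε
  obtain ⟨hint, hlim⟩ := hmv
  have hq' : (0 : ℝ) < q := by exact_mod_cast hq
  obtain ⟨F, hF⟩ : ∃ F : ℝ → ℝ, ∀ r, F r = c / 2 * (((m : ℝ) - m') * Real.sqrt r +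
      ((s' : ℝ) - s) / Real.sqrt r) := ⟨_, fun _ => rfl⟩
  have hcont : ContinuousAt F q := by
    have h1 : F = fun r => c / 2 * (((m : ℝ) - m') * Real.sqrt r +
      ((s' : ℝ) - s) / Real.sqrt r) := funext hF
    rw [h1]
    have h2 : ContinuousAt Real.sqrt (q : ℝ) := Real.continuous_sqrt.continuousAt
    have h3 : Real.sqrt (q : ℝ) ≠ 0 := (Real.sqrt_pos.2 hq').ne'
    exact continuousAt_const.mul ((continuousAt_const.mul h2).add
      (continuousAt_const.div h2 h3))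
  obtain ⟨δ, hδ, hd⟩ := Metric.continuousAt_iff.1 hcont (ε / 2) (by linarith)
  obtain ⟨q₁, h1, h2⟩ := exists_rat_btwn (show max 0 ((q : ℝ) - δ) < q from
    max_lt hq' (by linarith))
  obtain ⟨q₂, h3, h4⟩ := exists_rat_btwn (show (q : ℝ) < q + δ by linarith)
  have h10 : (0 : ℝ) < q₁ := lt_of_le_of_lt (le_max_left _ _) h1
  have h1δ : (q : ℝ) - δ < q₁ := lt_of_le_of_lt (le_max_right _ _) h1
  have hq1 : 0 < q₁ := by exact_mod_cast h10
  have hq2 : 0 < q₂ := by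
    have : (0 : ℝ) < q₂ := hq'.trans h3
    exact_mod_cast this
  refine ⟨q₁, q₂, hq1, by exact_mod_cast h2, by exact_mod_cast h3, ?_⟩
  have e1 : |F q₁ - F q| < ε / 2 := by
    have := @hd (q₁ : ℝ) (by rw [Real.dist_eq, abs_lt]; constructor <;> linarith)
    rwa [Real.dist_eq] at this
  have e2 : |F q₂ - F q| < ε / 2 := by
    have := @hd (q₂ : ℝ) (by rw [Real.dist_eq, abs_lt]; constructor <;> linarith)
    rwa [Real.dist_eq] at this
  have e3 : F q₁ - F q₂ < ε := by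
    have := (abs_lt.1 e1).2
    have := (abs_lt.1 e2).1
    linarith
  have l1 := hlim q₁ hq1 m' m s s'
  have l2 := hlim q₂ hq2 m' m s s'
  rw [← hF] at l1 l2
  have l3 := (l1.sub l2).eventually (gt_mem_nhds e3)
  -- large `n`
  have hlarge : ∀ᶠ n : ℕ in atTop, m' ≤ (n : ℤ) ∧ s' ≤ (n : ℚ) * q₁ := by
    have a1 : ∀ᶠ n : ℕ in atTop, m' ≤ (n : ℤ) := by
      filter_upwards [eventually_ge_atTop m'.toNat] with n hn
      omega
    have a2 : ∀ᶠ n : ℕ in atTop, s' ≤ (n : ℚ) * q₁ := by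
      obtain ⟨N, hN⟩ := exists_nat_gt (s' / q₁)
      filter_upwards [eventually_ge_atTop N] with n hn
      have h5 : s' / q₁ ≤ n := hN.le.trans (by exact_mod_cast hn)
      rwa [div_le_iff₀ hq1] at h5
    exact a1.and a2
  filter_upwards [l3, hlarge] with n hn hl
  obtain ⟨hl1, hl2⟩ := hl
  have hle : (n : ℚ) * q₁ ≤ (n : ℚ) * q₂ := by
    have : q₁ ≤ q₂ := by
      have : (q₁ : ℝ) ≤ q₂ := (h2.trans h3).le
      exact_mod_cast this
    have hn0 : (0 : ℚ) ≤ n := by positivity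
    exact mul_le_mul_of_nonneg_left this hn0
  have hleR : (n : ℝ) * q₁ ≤ (n : ℝ) * q₂ := by exact_mod_cast hle
  have hl2R : (s' : ℝ) ≤ (n : ℝ) * q₁ := by exact_mod_cast hl2
  have hsR : (s : ℝ) ≤ s' := by exact_mod_cast hs
  have c1 : (((n : ℚ) * q₁ : ℚ) : ℝ) = (n : ℝ) * q₁ := by push_cast; ring
  have c2 : (((n : ℚ) * q₂ : ℚ) : ℝ) = (n : ℝ) * q₂ := by push_cast; ring
  have i1 := hint m' n s ((n : ℚ) * q₁) hl1 (hs.trans hl2)
  have i2 := hint m n s' ((n : ℚ) * q₁) (hm.trans hl1) hl2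
  have i3 := hint m' n s ((n : ℚ) * q₂) hl1 (hs.trans (hl2.trans hle))
  have i4 := hint m n s' ((n : ℚ) * q₂) (hm.trans hl1) (hl2.trans hle)
  rw [c1] at i1 i2
  rw [c2] at i3 i4
  refine ⟨fun x => ?_, ?_, ?_⟩
  · have := hQUA (B x) (hsp.cts x) m m' n n s s' (n * q₁) (n * q₂) hm hl1 le_rfl hsR hl2R hleR
    unfold Dx
    linarith
  · exact (i1.sub i2).sub (i3.sub i4)
  · unfold Dx
    have e5 := integral_sub (i1.sub i2) (i3.sub i4)
    exact e5.le.trans hn.le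

end

end Pool.Agent.BLP.H20
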